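import Pool.Agent.Helper98.EQ.Goals
import Mathlib

/-!
# Project EQ (MP_5b9a11_al): packet ONE
-/

set_option autoImplicit false

namespace Pool.Agent.Helper52.EQ.ONE

open Pool.Agent.Helper47.EP (Dat Chr kap)

theorem t : Pool.Agent.Helper98.EQ.S_ONE := by
  intro p _ T R _ C S hS h0 htr
  obtain ⟨k1, k2, k3, k4⟩ := Pool.Agent.Helper39.EP.KAP.t p T R C
  have hk0 : ∀ y : T.K, kap C 0 y = if y = 0 then 1 else 0 := by
    intro y
    unfold kap
    rw [if_pos rfl]
  refine ⟨fun j => ∑ y, kap C j y • S y, ?_, ?_, ?_, ?_⟩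
  · show ∑ y, kap C 0 y • S y = 1
    rw [← h0, Finset.sum_eq_single (0 : T.K)]
    · rw [hk0, if_pos rfl, one_smul]
    · intro y _ hy
      rw [hk0, if_neg hy, zero_smul]
    · intro h
      exact absurd (Finset.mem_univ _) h
  · intro j k
    show ∑ y, kap C (j + k) y • S y = (∑ y, kap C j y • S y) * ∑ y, kap C k y • S y
    rw [Finset.sum_mul_sum]
    have h1 : ∀ y : T.K, ∑ y' : T.K, (kap C j y • S y) * (kap C k y' • S y') =
        ∑ s : T.K, (kap C j y * kap C k (s - y) * C.ψ (T.w y (s - y))) • S s := by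
      intro y
      rw [← Equiv.sum_comp (Equiv.subRight y)]
      refine Finset.sum_congr rfl fun s _ => ?_
      rw [Equiv.subRight_apply, smul_mul_smul_comm, hS, add_sub_cancel, smul_smul]
    rw [Finset.sum_congr rfl fun y _ => h1 y, Finset.sum_comm]
    refine Finset.sum_congr rfl fun s _ => ?_
    rw [← Finset.sum_smul, k1]
  · intro j k
    show (∑ y, kap C j y • S y) * S k = S (T.t j k) * ∑ y, kap C j y • S y
    rw [Finset.sum_mul, Finset.mul_sum]
    have h1 : ∑ y : T.K, kap C j y • S y * S k =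
        ∑ s : T.K, (kap C j (s - k) * C.ψ (T.w (s - k) k)) • S s := by
      rw [← Equiv.sum_comp (Equiv.subRight k)]
      refine Finset.sum_congr rfl fun s _ => ?_
      rw [Equiv.subRight_apply, smul_mul_assoc, hS, sub_add_cancel, smul_smul]
    have h2 : ∑ y : T.K, S (T.t j k) * (kap C j y • S y) =
        ∑ s : T.K, (kap C j (s - T.t j k) * C.ψ (T.w (T.t j k) (s - T.t j k))) • S s := by
      rw [← Equiv.sum_comp (Equiv.subRight (T.t j k))]
      refine Finset.sum_congr rfl fun s _ => ?_
      rw [Equiv.subRight_apply, mul_smul_comm, hS, add_sub_cancel, smul_smul]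
    rw [h1, h2]
    exact Finset.sum_congr rfl fun s _ => by rw [k2]
  · intro j
    show (∑ y, kap C j y • S y).trace = if j = 0 then (T.l : R) else -1
    rw [Matrix.trace_sum, Finset.sum_eq_single (0 : T.K)]
    · rw [Matrix.trace_smul, htr, if_pos rfl, smul_eq_mul]
      by_cases hj : j = 0
      · rw [if_pos hj, hj, hk0, if_pos rfl, one_mul]
      · rw [if_neg hj, k4 j hj, neg_mul, C.il_mul]
    · intro y _ hy
      rw [Matrix.trace_smul, htr, if_neg hy, smul_zero]
    · intro h
      exact absurd (Finset.mem_univ _) h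

end Pool.Agent.Helper52.EQ.ONE
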